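import Pool.Agent.H68.CL.Transfer

/-!
# Under CH there is a non-minimal `ω₂`-Countryman line

Outline of the proof (all ordinals below are `< ω₂`).
* Walks. For `0 < β < ω₂` fix a strictly increasing cofinal sequence `c_β : θ_β → β` with
  `θ_β ≤ ω₁`. For `ζ < β` let `j` be the least index with `ζ ≤ c_β(j)` and put
  `e(ζ, β) = (1 + j) + e(ζ, c_β(j))`, with `e(ζ, β) = 0` for `ζ ≥ β` (file `Walk`). The functions
  `e(·, β) : β → ω₁` are countable-to-one and coherent modulo countable sets, a value is never
  repeated with only larger values in between (`walk_nr`), and at every limit `δ ≤ β` a value which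
  is eventually exceeded below `δ` but not exceeded by some value shortly before `δ` has a last
  occurrence below `δ` (`walk_re`).
* The line `L` consists of all `x : α → ω₁`, `α < ω₂`, which differ from `e(·, α)` at countably many
  places, with the lexicographic order. The type of a pair `(x, y)` is the bound `ν` of the values at
  which `x` and `y` differ together with the collapsed structure of the countable set where `x` or
  `y` is at most `ν`; by CH there are `ℵ₁` types, and each type gives a chain (file `Country`).
* The subset is `{e(·, β) : β < ω₂}`. If `f` is a strictly increasing map of `L` into it, then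
  `f(z)` and `f(z')` agree below `δ` if `z` and `z'` do, for unboundedly many levels `δ` closed
  under suprema of `ω`-sequences (file `Embed`). A fusion argument with pruned subtrees (files
  `Prune` and `Final`) then gives a node `x` of length `δ` and an extension of an initial part of
  `x` whose image repeats a value with only larger values in between, a contradiction.
-/

namespace Pool.Agent.Results.MP_9648eb_lc.NonMinimalCountryman

open Cardinal Set
open scoped Cardinal Ordinal

/-- An `ω₂`-Countryman line: `|L| > ℵ₁` and `L × L`, ordered coordinatewise, is the union of a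
family of `ℵ₁` many chains. -/
def IsOmegaTwoCountryman (L : Type) [LinearOrder L] : Prop :=
  ℵ₁ < #L ∧ ∃ (ι : Type) (C : ι → Set (L × L)), #ι = ℵ₁ ∧ (∀ i, IsChain (· ≤ ·) (C i)) ∧
    ⋃ i, C i = Set.univ

/-- Minimality: `L` has an order-preserving injection into each of its subsets of cardinality
greater than `ℵ₁`. -/
def IsMinimalLine (L : Type) [LinearOrder L] : Prop :=
  ∀ S : Set L, ℵ₁ < #S → ∃ f : L → S, StrictMono f

/-- CH implies that there is an `ω₂`-Countryman line that is not minimal. -/
theorem result (hCH : (2 : Cardinal.{0}) ^ ℵ₀ = ℵ₁) :
    ∃ (L : Type) (_ : LinearOrder L), IsOmegaTwoCountryman L ∧ ¬ IsMinimalLine L := by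
  obtain ⟨L, hL, h1, S, hS, h2⟩ := H68.CL.exists_line hCH
  exact ⟨L, hL, h1, fun h => h2 (h S hS)⟩

end Pool.Agent.Results.MP_9648eb_lc.NonMinimalCountryman
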